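import Pool.Agent.H85.ERG.Targets

/-!
# Two charts with the same centre and radius
-/

set_option autoImplicit false

namespace Pool.Agent.H60.ERG

open MeasureTheory Set Metric Filter Topology Pool.Agent.H85.ERG Pool.Agent.H93.EN
open Pool.Agent.H93.BL hiding T_B1 T_B2 T_B3 T_SB T_SC

variable {ι : Type} (P : Polygon ι)

theorem notMem_of_side {j : ι} {z : ℂ} (hz : z ∈ openSegment ℝ (P.p j) (P.q j)) : z ∉ P.Ω := by
  intro hΩ
  have h1 : z ∈ frontier P.Ω := by
    rw [P.frontier_eq]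
    exact mem_iUnion.2 ⟨j, openSegment_subset_segment ℝ _ _ hz⟩
  rw [P.isOpen.frontier_eq] at h1
  exact h1.2 hΩ

theorem sg_lin (j : ι) (x y : ℂ) (t : ℝ) :
    sg P j (x + (t : ℂ) * (y - x)) = sg P j x + t * (sg P j y - sg P j x) := by
  unfold sg
  have h1 : x + (t : ℂ) * (y - x) - P.p j = (x - P.p j) + (t : ℂ) * ((y - P.p j) - (x - P.p j)) := by
    ring
  rw [h1, cr_add_right, cr_smul_right, cr_sub_right (P.u j) (y - P.p j) (x - P.p j)]

theorem mem_ball_lin {x y : ℂ} {R t : ℝ} (hy : y ∈ ball x R) (h0 : 0 ≤ t) (h1 : t ≤ 1) :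
    x + (t : ℂ) * (y - x) ∈ ball x R := by
  rw [mem_ball, dist_eq_norm] at hy ⊢
  have h2 : x + (t : ℂ) * (y - x) - x = (t : ℂ) * (y - x) := by ring
  rw [h2, norm_mul, Complex.norm_real, Real.norm_of_nonneg h0]
  calc t * ‖y - x‖ ≤ 1 * ‖y - x‖ := mul_le_mul_of_nonneg_right h1 (norm_nonneg _)
    _ < R := by rwa [one_mul]

theorem sg_pos {x : ℂ} {R : ℝ} {j : ι} (hR : 0 < R) (hx : x ∈ P.Ω) (h : Chart P x R (some j)) :
    0 < sg P j x := by
  refine lt_of_le_of_ne h.1 fun h0 => ?_
  exact notMem_of_side P (h.2.2 x (mem_ball_self hR) h0.symm) hx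

theorem agp : T_AGP := by
  intro ι P x R j τ hx hj hτ y hy hyj
  have hR : 0 < R := by
    rw [mem_ball] at hy
    exact dist_nonneg.trans_lt hy
  have hjx := sg_pos P hR hx hj
  obtain ⟨t, ht⟩ : ∃ t, t = sg P j x / (sg P j x - sg P j y) := ⟨_, rfl⟩
  have hden : 0 < sg P j x - sg P j y := by linarith
  have ht0 : 0 < t := by
    rw [ht]
    exact div_pos hjx hden
  have ht1 : t ≤ 1 := by
    rw [ht, div_le_one hden]
    linarith
  obtain ⟨y0, hy0⟩ : ∃ y0, y0 = x + (t : ℂ) * (y - x) := ⟨_, rfl⟩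
  have hs0 : sg P j y0 = 0 := by
    rw [hy0, sg_lin, ht]
    field_simp
    ring
  have hb0 : y0 ∈ ball x R := by
    rw [hy0]
    exact mem_ball_lin hy ht0.le ht1
  have hseg := hj.2.2 y0 hb0 hs0
  have hn0 := notMem_of_side P hseg
  rcases τ with _ | i
  · exact absurd (hτ hb0) hn0
  · by_contra hne
    have hij : j ≠ i := fun h => hne (by rw [h])
    have hix := sg_pos P hR hx hτ
    have hi0 : sg P i y0 ≤ 0 := by
      by_contra h
      exact hn0 (hτ.2.1 y0 hb0 (not_le.1 h))
    have hi00 : sg P i y0 = 0 := by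
      by_contra h
      have hlt : sg P i y0 < 0 := lt_of_le_of_ne hi0 h
      have hden1 : 0 < sg P i x - sg P i y0 := by linarith
      obtain ⟨t1, ht1'⟩ : ∃ t1, t1 = sg P i x / (sg P i x - sg P i y0) := ⟨_, rfl⟩
      have h10 : 0 < t1 := by
        rw [ht1']
        exact div_pos hix hden1
      have h11 : t1 < 1 := by
        rw [ht1', div_lt_one hden1]
        linarith
      have hb1 := mem_ball_lin hb0 h10.le h11.le
      have hs1 : sg P i (x + (t1 : ℂ) * (y0 - x)) = 0 := by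
        rw [sg_lin, ht1']
        field_simp
        ring
      have hn1 := notMem_of_side P (hτ.2.2 _ hb1 hs1)
      have hs2 : 0 < sg P j (x + (t1 : ℂ) * (y0 - x)) := by
        rw [sg_lin, hs0]
        nlinarith
      exact hn1 (hj.2.1 _ hb1 hs2)
    have hseg' := hτ.2.2 y0 hb0 hi00
    rcases P.meet j i hij with h | ⟨h1, h2⟩
    · exact Set.disjoint_left.1 h hseg (openSegment_subset_segment ℝ _ _ hseg')
    · have hu := P.u_reversed h1 h2
      have h3 : sg P i x = -sg P j x := by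
        unfold sg
        rw [hu, h1, P.q_eq j]
        have h4 : x - (P.p j + (P.len j : ℂ) * P.u j) =
            (x - P.p j) - (P.len j : ℂ) * P.u j := by ring
        rw [h4, cr_neg_left, cr_sub_right, cr_smul_right, cr_self, mul_zero, sub_zero]
      linarith

end Pool.Agent.H60.ERG
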